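import Pool.Agent.Run7.h427.CY.Padic

/-!
# Galois representations of weight two: one cyclic extension is enough

Let `θ` be a character of the Hecke algebra of weight two and level `𝔫` over a number field `K`,
`a_v = θ (T_v)`, `b_v = θ (S_v)`, `λ` a prime above `ℓ` of the field generated by the values of `θ`, `L`
the completion, inside an algebraic closure `PadicAlgCl ℓ` of `ℚ_ℓ`, and `S` the set of the primes which
divide `𝔫 ℓ`.  Q1 asks for a continuous irreducible representation of `Gal (K̄ / K)` which is
unramified at `v ∉ S`, with characteristic polynomial `X² - a_v X + b_v N v` at Frobenius (and of weight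
two above `ℓ`).

We show: if this representation exists, for the base change of `θ`, over one cyclic extension `K' / K` of
prime degree `p`, possibly ramified everywhere, it is absolutely irreducible and `[L (ζ_p) : L] > 2`
(only finitely many `p` are excluded, for each `λ`), then the representation over `K` exists; more
generally `K' / K` can be a solvable extension, or a tower of cyclic extensions, whose degree is
divisible only by such primes `p`.  The usual descent arguments need a family of cyclic extensions: one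
extension of degree `p` determines the eigenvalues at the inert primes only up to `p`-th roots of
unity.  The point is that the characteristic polynomials are *rational* over `L`, and this fixes the
`p`-th roots of unity and the ramification when `L (ζ_p)` is large.

The representation over `K` is equal to the given one on `Gal (K̄ / K')`; the condition (ii) of Q1
(weight two) concerns only the restrictions to small open subgroups of the decomposition groups and so
carries over.
-/

set_option autoImplicit false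

namespace Pool.Agent.Results.MP_976e2b_nt.OneCyclicExtension

open Matrix Filter Topology NumberField IsDedekindDomain Polynomial Run7.h427.CY
open Pool.Agent.W401.Cheb Pool.Agent.W528.Ord

variable {K : Type} [Field K] [NumberField K] {ℓ : ℕ} [Fact ℓ.Prime]

/-- The polynomial `X² - a X + b N v`. -/
noncomputable def heckePoly (v : HeightOneSpectrum (𝓞 K)) (a b : PadicAlgCl ℓ) :
    (PadicAlgCl ℓ)[X] :=
  X ^ 2 - C a * X + C (b * (Ideal.absNorm v.asIdeal : PadicAlgCl ℓ))

/-- The condition (i) of Q1 at the prime `v` for a representation `R` of the absolute Galois group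
`GK K` of `K`: `R` is unramified at `v`, with characteristic polynomial `X² - a X + b N v` at
Frobenius. -/
def Attached (a b : PadicAlgCl ℓ) (v : HeightOneSpectrum (𝓞 K))
    (R : GK K →* GL (Fin 2) (PadicAlgCl ℓ)) : Prop :=
  (∀ Q, Above v Q → ∀ σ : GK K, FrobPow v Q 0 σ → R σ = 1) ∧
    ∀ σ : GK K, IsFrob v σ →
      (R σ : Matrix (Fin 2) (Fin 2) (PadicAlgCl ℓ)).charpoly = heckePoly v a b

/-- The condition (i) of Q1 for the base change to the fixed field `K'` of `H`, at the primes of `K'`
above `v`: the representation `ρ` of `H = Gal (K̄ / K')` is unramified at these primes, and if `σ ∈ H`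
acts as the `m`-th power of the Frobenius automorphism at `v`, `m > 0`, on the residue field of a prime
of `K̄` above `v`, then the eigenvalues of `ρ σ` are the `m`-th powers of the roots of
`X² - a X + b N v`. -/
def AttachedOver (a b : PadicAlgCl ℓ) (v : HeightOneSpectrum (𝓞 K)) (H : Subgroup (GK K))
    (ρ : H →* GL (Fin 2) (PadicAlgCl ℓ)) : Prop :=
  (∀ Q, Above v Q → ∀ (σ : GK K) (h : σ ∈ H), FrobPow v Q 0 σ → ρ ⟨σ, h⟩ = 1) ∧
    ∀ Q, Above v Q → ∀ m : ℕ, 0 < m → ∀ (σ : GK K) (h : σ ∈ H), FrobPow v Q m σ →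
      (ρ ⟨σ, h⟩ : Matrix (Fin 2) (Fin 2) (PadicAlgCl ℓ)).charpoly.roots =
        (heckePoly v a b).roots.map fun x => x ^ m

/-- The subgroups `H` of `GK K` whose fixed fields can be reached from `K` by successive cyclic
extensions of prime degrees `p` with `[L (ζ_p) : L] > 2` (`GoodLoc`). -/
inductive Reached (K : Type) [Field K] [NumberField K]
    (L : IntermediateField ℚ_[ℓ] (PadicAlgCl ℓ)) : Subgroup (GK K) → Prop
  | base : Reached K L ⊤
  | step (H H' : Subgroup (GK K)) (p : ℕ) : GoodLoc L 2 p → Reached K L H' → H ≤ H' →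
      (H.subgroupOf H').Normal → H.relIndex H' = p → Reached K L H

theorem tower_of_reached {L : IntermediateField ℚ_[ℓ] (PadicAlgCl ℓ)} {H : Subgroup (GK K)}
    (h : Reached K L H) :
    Tower {τ : PadicAlgCl ℓ ≃+* PadicAlgCl ℓ | Continuous τ ∧ ∀ x ∈ L, τ x = x} 2 Set.univ H := by
  induction h with
  | base => exact Tower.top
  | step H H' p hp _ hle hn hi ih => exact tower_step hp ih hle hn hi

/-- solvable Galois extensions of good degree are towers of cyclic extensions of good degrees -/
theorem reached_of_solvable {L : IntermediateField ℚ_[ℓ] (PadicAlgCl ℓ)} {H : Subgroup (GK K)}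
    [hHn : H.Normal] (hH : IsOpen (H : Set (GK K))) [hsolv : Group.IsSolvable (GK K ⧸ H)]
    (hgood : ∀ p : ℕ, p.Prime → p ∣ H.index → GoodLoc L 2 p) : Reached K L H := by
  refine chain_induction hH (Reached K L) Reached.base ?_
  intro M H' _ hle hn hp hdvd hR
  exact Reached.step M H' _ (hgood _ hp hdvd) hR hle hn rfl

theorem heckePoly_monic (v : HeightOneSpectrum (𝓞 K)) (a b : PadicAlgCl ℓ) :
    (heckePoly v a b).Monic ∧ (heckePoly v a b).natDegree = 2 := by
  have h : heckePoly v a b =
      C 1 * X ^ 2 + C (-a) * X + C (b * (Ideal.absNorm v.asIdeal : PadicAlgCl ℓ)) := by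
    rw [heckePoly, C_neg, C_1]
    ring
  have h2 := natDegree_quadratic (a := (1 : PadicAlgCl ℓ)) (b := -a)
    (c := b * (Ideal.absNorm v.asIdeal : PadicAlgCl ℓ)) one_ne_zero
  rw [← h] at h2
  refine ⟨?_, h2⟩
  have h3 := leadingCoeff_quadratic (a := (1 : PadicAlgCl ℓ)) (b := -a)
    (c := b * (Ideal.absNorm v.asIdeal : PadicAlgCl ℓ)) one_ne_zero
  rw [← h] at h3
  exact h3

theorem heckePoly_coeff (L : IntermediateField ℚ_[ℓ] (PadicAlgCl ℓ)) (v : HeightOneSpectrum (𝓞 K))
    {a b : PadicAlgCl ℓ} (ha : a ∈ L) (hb : b ∈ L) (i : ℕ) : (heckePoly v a b).coeff i ∈ L := by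
  have hN : (Ideal.absNorm v.asIdeal : PadicAlgCl ℓ) ∈ L := natCast_mem L _
  rw [heckePoly, coeff_add, coeff_sub, coeff_X_pow, coeff_C_mul, coeff_X, coeff_C]
  refine L.add_mem (L.sub_mem ?_ (L.mul_mem ha ?_)) ?_
  · split_ifs
    · exact L.one_mem
    · exact L.zero_mem
  · split_ifs
    · exact L.one_mem
    · exact L.zero_mem
  · split_ifs
    · exact L.mul_mem hb hN
    · exact L.zero_mem

/-- the restriction of a representation with the property of Q1 over `K` has this property over
`K'` -/
theorem attachedOver_of_attached {a b : PadicAlgCl ℓ} {v : HeightOneSpectrum (𝓞 K)}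
    {R : GK K →* GL (Fin 2) (PadicAlgCl ℓ)} (h : Attached a b v R) (H : Subgroup (GK K)) :
    AttachedOver a b v H (R.comp H.subtype) := by
  refine ⟨fun Q hQ σ _ hσ => h.1 Q hQ σ hσ, fun Q hQ m _ σ _ hσ => ?_⟩
  have h1 := aroots_of_attached (PadicAlgCl ℓ) h.1 h.2 hQ hσ
  rw [aroots_def, aroots_def, Algebra.algebraMap_self, Polynomial.map_id, Polynomial.map_id] at h1
  exact h1

/-- **Representations of weight two from one cyclic extension.** -/
theorem result (K : Type) [Field K] [NumberField K] (ℓ : ℕ) [Fact ℓ.Prime]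
    (L : IntermediateField ℚ_[ℓ] (PadicAlgCl ℓ))
    (S : Set (HeightOneSpectrum (𝓞 K))) (hS : S.Finite)
    (a b : HeightOneSpectrum (𝓞 K) → L) :
    -- descent: the representation over `K'` extends, and the extension is the answer over `K`
    (∀ H : Subgroup (GK K), IsOpen (H : Set (GK K)) → Reached K L H →
      ∀ ρ : H →* GL (Fin 2) (PadicAlgCl ℓ),
      Continuous (fun x => (ρ x : Matrix (Fin 2) (Fin 2) (PadicAlgCl ℓ))) → Spans ρ →
      (∀ v ∉ S, AttachedOver (a v) (b v) v H ρ) →
      ∃ R : GK K →* GL (Fin 2) (PadicAlgCl ℓ),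
        Continuous (fun x => (R x : Matrix (Fin 2) (Fin 2) (PadicAlgCl ℓ))) ∧ Spans R ∧
        (∀ (x : GK K) (hx : x ∈ H), R x = ρ ⟨x, hx⟩) ∧
        (∀ v ∉ S, Attached (a v : PadicAlgCl ℓ) (b v) v R) ∧
        (∀ M : IntermediateField ℚ_[ℓ] (PadicAlgCl ℓ), L ≤ M →
          (∀ x i j, (ρ x : Matrix (Fin 2) (Fin 2) (PadicAlgCl ℓ)) i j ∈ M) →
          ∀ x i j, (R x : Matrix (Fin 2) (Fin 2) (PadicAlgCl ℓ)) i j ∈ M) ∧
        ∀ R' : GK K →* GL (Fin 2) (PadicAlgCl ℓ),
          Continuous (fun x => (R' x : Matrix (Fin 2) (Fin 2) (PadicAlgCl ℓ))) →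
          (∀ v ∉ S, Attached (a v : PadicAlgCl ℓ) (b v) v R') →
          ∃ A : GL (Fin 2) (PadicAlgCl ℓ), ∀ x, R' x = A * R x * A⁻¹) ∧
    -- conversely, the restriction of a representation over `K` has the property over `K'`
    (∀ (H : Subgroup (GK K)) (R : GK K →* GL (Fin 2) (PadicAlgCl ℓ)),
      (∀ v ∉ S, Attached (a v : PadicAlgCl ℓ) (b v) v R) →
      ∀ v ∉ S, AttachedOver (a v) (b v) v H (R.comp H.subtype)) ∧
    -- solvable Galois extensions of good degree are towers of good cyclic extensions
    (∀ (H : Subgroup (GK K)) (_ : H.Normal), IsOpen (H : Set (GK K)) →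
      Group.IsSolvable (GK K ⧸ H) → (∀ p : ℕ, p.Prime → p ∣ H.index → GoodLoc L 2 p) →
      Reached K L H) := by
  refine ⟨fun H hH hR ρ hc hsp hρ => ?_, fun H R hR v hv => attachedOver_of_attached (hR v hv) H,
    fun H hHn hH hs hg => reached_of_solvable hH hg⟩
  have hSd : Tendsto (dens fun v => v ∉ Sᶜ) atTop (𝓝 0) := by
    simp only [Set.mem_compl_iff, not_not]
    exact Run7.h427.DS.dens_finite S hS
  obtain ⟨R, h1, h2, h3, h4, h5, h6⟩ := descent_padic (by norm_num) L (V := Sᶜ)
    (T := fun v => heckePoly v (a v : PadicAlgCl ℓ) (b v)) hSd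
    (fun v _ => (heckePoly_monic v _ _).1) (fun v _ => (heckePoly_monic v _ _).2)
    (fun v _ i => heckePoly_coeff L v (a v).2 (b v).2 i) (tower_of_reached hR) hH hc hsp
    (fun v hv => (hρ v hv).2)
  refine ⟨R, h1, h3, h2, fun v hv => ⟨h5 v hv (hρ v hv).1, h4 v hv⟩, h6, fun R' hR' hR'v => ?_⟩
  exact conj_of_frob (by norm_num) h1 hR' h3 (Run7.h427.DS.dens_finite S hS)
    (Run7.h427.DS.dens_finite S hS) h4 (fun v hv => (hR'v v hv).2)

end Pool.Agent.Results.MP_976e2b_nt.OneCyclicExtension
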